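import Pool.Agent.Helper74.DI.StM

/-!
# Project DI (MP_26f0da_lc): module LF1
-/

set_option autoImplicit false

namespace Pool.Agent.Helper91.DI

open Pool.Agent.Helper74 Pool.Agent.Helper74.DI
open Pool.Agent.Helper74.NM (NC)
open Pool.Agent.Helper74.WB (OP QW rl enc iv ap rd Red)

theorem hLF1 (hMCH : StMCH) (hHED : StHED) (hNUM : StNUM) (hRNH : StRNH) (hPPF : StPPF)
    (hNCO : StNCO) (hAUB : DR.StAUB) : StLF1 := by
  intro n φ ψ
  have h5 : DR.InL L5 := (hHED Op L5).1 hMCH
  have hne : ∀ a : Fin n, hw φ ψ a ≠ [] := by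
    intro a h
    have : (Op.tog : Op) ∈ hw φ ψ a := by
      unfold hw
      simp
    rw [h] at this
    simp at this
  have key := hAUB (Fin n) Op L5 [.nop, .nop] [] (hw φ ψ) (by simp) hne h5
  have e : {w : List (Fin n) | NC Sc (cl φ ψ true w)} =
      {w : List (Fin n) | [Op.nop, Op.nop] ++ (w.flatMap (hw φ ψ) ++ []) ∈ L5} := by
    ext w
    simp only [Set.mem_setOf_eq]
    obtain ⟨h1, h2⟩ := hRNH (Fin n) φ ψ w
    have hno : 2 * no ([Op.nop, Op.nop] ++ (w.flatMap (hw φ ψ) ++ [])) + 2 ≤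
        ([Op.nop, Op.nop] ++ (w.flatMap (hw φ ψ) ++ [])).length := by
      rw [no_append, no_append, List.length_append, List.length_append]
      simp only [no, List.length_cons, List.length_nil]
      omega
    rw [hNUM _ hno, run_append, run_append, run_nil]
    have e2 : run [Op.nop, Op.nop] (true, 1, 0) = (true, 1, 0) := rfl
    rw [e2, h1 true (1, 0), ← hPPF, ← hNCO]
  rw [e]
  exact key

end Pool.Agent.Helper91.DI
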